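import Mathlib
import Pool.Agent.Helper30_Sph.Stmts

/-!
# SPH, module IDN
-/

set_option autoImplicit false

namespace Pool.Agent.Sph.H37

open Pool.Agent.Sph

lemma sum_fiber {ι V R : Type} [Fintype ι] [DecidableEq ι] [Fintype V]
    [AddCommMonoid R] (i : ι) (F : (ι → V) → R)
    (h : ∀ g, ∑ v, F (Function.update g i v) = 0) : ∑ g, F g = 0 := by
  classical
  rw [← (Equiv.funSplitAt i V).symm.sum_comp, Fintype.sum_prod_type_right]
  apply Finset.sum_eq_zero
  intro r _
  rcases isEmpty_or_nonempty V with hV | ⟨⟨v0⟩⟩
  · simp
  · rw [← h ((Equiv.funSplitAt i V).symm (v0, r))]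
    apply Finset.sum_congr rfl
    intro v _
    congr 1
    funext j
    by_cases hj : j = i
    · subst hj
      simp [Equiv.funSplitAt, Equiv.piSplitAt]
    · simp [Equiv.funSplitAt, Equiv.piSplitAt, hj]

section

variable {V R : Type} [Fintype V] [CommRing R] {m : ℕ}

/-- the form given by kernels -/
def Q (z : (Fin m → V) → R) (κ : Fin m → V → V → R) : R :=
  ∑ f, ∑ g, (∏ j, κ j (f j) (g j)) * (z f * z g)

omit [Fintype V] in
lemma prod_upd (κ : Fin m → V → V → R) (i : Fin m) (E : V → V → R) (f g : Fin m → V) :
    ∏ j, Function.update κ i E j (f j) (g j) =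
      E (f i) (g i) * ∏ j ∈ Finset.univ.erase i, κ j (f j) (g j) := by
  rw [← Finset.mul_prod_erase Finset.univ _ (Finset.mem_univ i), Function.update_self]
  congr 1
  apply Finset.prod_congr rfl
  intro j hj
  rw [Function.update_of_ne (Finset.ne_of_mem_erase hj)]

lemma Q_add (z : (Fin m → V) → R) (κ : Fin m → V → V → R) (i : Fin m) (E E' : V → V → R) :
    Q z (Function.update κ i (fun v w => E v w + E' v w)) =
      Q z (Function.update κ i E) + Q z (Function.update κ i E') := by
  unfold Q
  rw [← Finset.sum_add_distrib]
  apply Finset.sum_congr rfl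
  intro f _
  rw [← Finset.sum_add_distrib]
  apply Finset.sum_congr rfl
  intro g _
  rw [prod_upd, prod_upd, prod_upd]
  ring

lemma Q_left (z : (Fin m → V) → R) (hz : ∀ f j, ∑ v, z (Function.update f j v) = 0)
    (κ : Fin m → V → V → R) (i : Fin m) (φ : V → R) :
    Q z (Function.update κ i (fun v _ => φ v)) = 0 := by
  unfold Q
  apply Finset.sum_eq_zero
  intro f _
  apply sum_fiber i
  intro g
  have h1 : ∀ v : V, (∏ j, Function.update κ i (fun v _ => φ v) j (f j)
      (Function.update g i v j)) * (z f * z (Function.update g i v)) =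
      (φ (f i) * (∏ j ∈ Finset.univ.erase i, κ j (f j) (g j)) * z f) *
        z (Function.update g i v) := by
    intro v
    rw [prod_upd]
    have h2 : ∏ j ∈ Finset.univ.erase i, κ j (f j) (Function.update g i v j) =
        ∏ j ∈ Finset.univ.erase i, κ j (f j) (g j) := by
      apply Finset.prod_congr rfl
      intro j hj
      rw [Function.update_of_ne (Finset.ne_of_mem_erase hj)]
    rw [h2]
    ring
  rw [Finset.sum_congr rfl (fun v _ => h1 v), ← Finset.mul_sum, hz, mul_zero]

/-- transposition of the kernels in `T` -/
def flip (T : Finset (Fin m)) (κ : Fin m → V → V → R) : Fin m → V → V → R :=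
  fun j => if j ∈ T then fun v w => κ j w v else κ j

lemma Q_flip_univ (z : (Fin m → V) → R) (κ : Fin m → V → V → R) :
    Q z (flip Finset.univ κ) = Q z κ := by
  unfold Q flip
  rw [Finset.sum_comm]
  apply Finset.sum_congr rfl
  intro f _
  apply Finset.sum_congr rfl
  intro g _
  simp only [Finset.mem_univ, if_true]
  rw [mul_comm (z g)]

lemma Q_right (z : (Fin m → V) → R) (hz : ∀ f j, ∑ v, z (Function.update f j v) = 0)
    (κ : Fin m → V → V → R) (i : Fin m) (φ : V → R) :
    Q z (Function.update κ i (fun _ w => φ w)) = 0 := by
  rw [← Q_flip_univ]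
  have h1 : flip Finset.univ (Function.update κ i (fun _ w => φ w)) =
      Function.update (flip Finset.univ κ) i (fun v _ => φ v) := by
    funext j
    unfold flip
    by_cases hj : j = i
    · subst hj
      simp
    · simp [Function.update_of_ne hj]
  rw [h1, Q_left z hz]

variable [LinearOrder V] [CharP R 2]

/-- the kernel -/
def K (s : V → R) (v w : V) : R := if v < w then s v + s w else 0

/-- the diagonal kernel -/
def D (s : V → R) (v w : V) : R := if v = w then s v else 0

lemma Q_K (s : V → R) (z : (Fin m → V) → R) (hz : ∀ f j, ∑ v, z (Function.update f j v) = 0)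
    (κ : Fin m → V → V → R) (i : Fin m) :
    Q z (Function.update κ i (fun v w => K s w v)) = Q z (Function.update κ i (K s)) := by
  have h1 : Q z (Function.update κ i (fun v w => s v + s w)) = 0 := by
    rw [Q_add z κ i (fun v _ => s v) (fun _ w => s w), Q_left z hz, Q_right z hz, add_zero]
  have h2 : (fun v w : V => s v + s w) = fun v w => K s w v + K s v w := by
    funext v w
    unfold K
    rcases lt_trichotomy v w with h | h | h
    · rw [if_neg (not_lt.2 h.le), if_pos h, zero_add]
    · subst h
      rw [if_neg (lt_irrefl _), add_zero]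
      exact CharTwo.add_self_eq_zero _
    · rw [if_pos h, if_neg (not_lt.2 h.le), add_zero, add_comm]
  rw [h2, Q_add z κ i (fun v w => K s w v) (K s)] at h1
  exact CharTwo.add_eq_zero.1 h1

lemma Q_flip (s : V → R) (z : (Fin m → V) → R)
    (hz : ∀ f j, ∑ v, z (Function.update f j v) = 0) (κ : Fin m → V → V → R)
    (T : Finset (Fin m)) (hκ : ∀ j ∈ T, κ j = K s ∨ κ j = D s) : Q z (flip T κ) = Q z κ := by
  induction T using Finset.induction_on with
  | empty =>
    congr 1
  | insert j T hj ih =>
    have ih' := ih (fun j hj => hκ j (Finset.mem_insert_of_mem hj))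
    have h1 : flip (insert j T) κ = Function.update (flip T κ) j (fun v w => κ j w v) := by
      funext i
      by_cases hi : i = j
      · subst hi
        simp [flip]
      · rw [Function.update_of_ne hi]
        simp [flip, hi]
    have h2 : Function.update (flip T κ) j (κ j) = flip T κ := by
      rw [Function.update_eq_iff]
      refine ⟨?_, fun _ _ => rfl⟩
      simp [flip, hj]
    rcases hκ j (Finset.mem_insert_self _ _) with h | h
    · rw [h1, h, Q_K s z hz, ← h, h2, ih']
    · have h3 : (fun v w => κ j w v) = κ j := by
        rw [h]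
        funext v w
        unfold D
        by_cases hvw : v = w
        · subst hvw
          rfl
        · rw [if_neg hvw, if_neg (Ne.symm hvw)]
      rw [h1, h3, h2, ih']

lemma Q_transpose (s : V → R) (z : (Fin m → V) → R)
    (hz : ∀ f j, ∑ v, z (Function.update f j v) = 0) (κ : Fin m → V → V → R) (i : Fin m)
    (hκ : ∀ j, j ≠ i → κ j = K s ∨ κ j = D s) (E : V → V → R) :
    Q z (Function.update κ i (fun v w => E w v)) = Q z (Function.update κ i E) := by
  rw [← Q_flip_univ]
  have h1 : flip Finset.univ (Function.update κ i (fun v w => E w v)) =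
      flip (Finset.univ.erase i) (Function.update κ i E) := by
    funext j
    by_cases hj : j = i
    · subst hj
      simp [flip]
    · simp [flip, hj]
  rw [h1]
  apply Q_flip s z hz
  intro j hj
  rw [Function.update_of_ne (Finset.ne_of_mem_erase hj)]
  exact hκ j (Finset.ne_of_mem_erase hj)

lemma Q_K_D (s : V → R) (z : (Fin m → V) → R)
    (hz : ∀ f j, ∑ v, z (Function.update f j v) = 0) (κ : Fin m → V → V → R) (i : Fin m)
    (hκ : ∀ j, j ≠ i → κ j = K s ∨ κ j = D s) :
    Q z (Function.update κ i (K s)) = Q z (Function.update κ i (D s)) := by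
  have h0 : Q z (Function.update κ i (fun v _ => s v)) = 0 := Q_left z hz κ i s
  have h1 : (fun v _ : V => s v) = fun v w => D s v w +
      ((if v < w then s v else 0) + (if w < v then s v else 0)) := by
    funext v w
    unfold D
    rcases lt_trichotomy v w with h | h | h
    · rw [if_neg h.ne, if_pos h, if_neg (not_lt.2 h.le), zero_add, add_zero]
    · subst h
      rw [if_pos rfl, if_neg (lt_irrefl _), add_zero, add_zero]
    · rw [if_neg h.ne', if_neg (not_lt.2 h.le), if_pos h, zero_add, zero_add]
  rw [h1, Q_add z κ i (D s) (fun v w => (if v < w then s v else 0) + (if w < v then s v else 0)),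
    Q_add z κ i (fun v w => if v < w then s v else 0) (fun v w => if w < v then s v else 0)] at h0
  have h2 := Q_transpose s z hz κ i hκ (fun v w => if v < w then s w else 0)
  have h3 : Q z (Function.update κ i (K s)) =
      Q z (Function.update κ i (fun v w => if v < w then s v else 0)) +
        Q z (Function.update κ i (fun v w => if v < w then s w else 0)) := by
    rw [← Q_add]
    congr 2
    funext v w
    unfold K
    by_cases h : v < w <;> simp [h]
  rw [h2, ← h3] at h0
  exact (CharTwo.add_eq_zero.1 h0).symm

lemma Q_all (s : V → R) (z : (Fin m → V) → R)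
    (hz : ∀ f j, ∑ v, z (Function.update f j v) = 0) (A : Finset (Fin m)) :
    Q z (fun j => if j ∈ A then D s else K s) = Q z (fun _ => K s) := by
  induction A using Finset.induction_on with
  | empty => simp
  | insert i A hi ih =>
    rw [← ih]
    set κ : Fin m → V → V → R := fun j => if j ∈ A then D s else K s with hκ
    have h1 : (fun j => if j ∈ insert i A then D s else K s) = Function.update κ i (D s) := by
      funext j
      by_cases hj : j = i
      · subst hj
        simp
      · rw [Function.update_of_ne hj]
        simp [hκ, hj]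
    have h2 : Function.update κ i (K s) = κ := by
      rw [Function.update_eq_iff]
      refine ⟨?_, fun _ _ => rfl⟩
      simp [hκ, hi]
    rw [h1, ← Q_K_D s z hz κ i, h2]
    intro j _
    rw [hκ]
    by_cases hj : j ∈ A
    · right
      simp [hj]
    · left
      simp [hj]

end

/-- IDN. -/
theorem idn : IdnStmt := by
  intro V _ _ R _ _ m s z hz _
  have h1 : ∑ f, ∑ g, (if ∀ j, f j < g j then (∏ j, (s (f j) + s (g j))) * (z f * z g) else 0) =
      Q z (fun _ => K s) := by
    unfold Q
    apply Finset.sum_congr rfl
    intro f _
    apply Finset.sum_congr rfl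
    intro g _
    unfold K
    rw [Finset.prod_ite_zero]
    by_cases h : ∀ j, f j < g j
    · rw [if_pos h, if_pos (fun j _ => h j)]
    · rw [if_neg h, if_neg (fun h' => h (fun j => h' j (Finset.mem_univ j))), zero_mul]
  have h2 : ∑ f, (∏ j, s (f j)) * (z f) ^ 2 = Q z (fun _ => D s) := by
    unfold Q
    apply Finset.sum_congr rfl
    intro f _
    rw [Finset.sum_eq_single f]
    · unfold D
      simp only [if_true]
      ring
    · intro g _ hg
      unfold D
      rw [Finset.prod_ite_zero, if_neg, zero_mul]
      intro h
      exact hg (funext fun j => (h j (Finset.mem_univ j)).symm)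
    · intro h
      exact absurd (Finset.mem_univ f) h
  have h3 := Q_all s z hz Finset.univ
  simp only [Finset.mem_univ, if_true] at h3
  rw [h1, h2, h3]

end Pool.Agent.Sph.H37
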