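import Mathlib
import Pool.Agent.Helper30_Sph.Stmts

/-!
# SPH, module RKF
-/

set_option autoImplicit false

namespace Pool.Agent.Sph.H37

open Pool.Agent.Sph Pool.Agent.Helper30L2

/-- The iterated link. -/
lemma hsp_iter {V : Type} [DecidableEq V] [Fintype V] (Γ : SimpleGraph V) (n : ℕ)
    (S : Finset V) (hS : Hsp Γ n S) (T : Finset V) (hT : T ⊆ S) (hcl : Γ.IsClique (T : Set V)) :
    ∀ A : Finset V, (∀ v, v ∈ A ↔ v ∈ S ∧ ∀ t ∈ T, Γ.Adj t v) → Hsp Γ (n - T.card) A := by
  classical
  induction T using Finset.induction_on with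
  | empty =>
    intro A hA
    have : A = S := by
      ext v
      rw [hA]
      simp
    rw [this]
    simpa using hS
  | insert a T ha ih =>
    intro A hA
    have hT' : T ⊆ S := fun t ht => hT (Finset.mem_insert_of_mem ht)
    have hcl' : Γ.IsClique (T : Set V) :=
      hcl.subset (by intro t ht; exact Finset.mem_coe.2 (Finset.mem_insert_of_mem ht))
    set A' : Finset V := S.filter (fun v => ∀ t ∈ T, Γ.Adj t v) with hA'
    have hmem : ∀ v, v ∈ A' ↔ v ∈ S ∧ ∀ t ∈ T, Γ.Adj t v := by
      intro v
      rw [hA', Finset.mem_filter]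
    have h1 := ih hT' hcl' A' hmem
    have haA : a ∈ A' := by
      rw [hmem]
      refine ⟨hT (Finset.mem_insert_self _ _), fun t ht => ?_⟩
      apply hcl (Finset.mem_coe.2 (Finset.mem_insert_of_mem ht))
        (Finset.mem_coe.2 (Finset.mem_insert_self _ _))
      rintro rfl
      exact ha ht
    have h2 : A = lk Γ A' a := by
      ext v
      rw [hA, mem_lk, hmem]
      constructor
      · rintro ⟨h3, h4⟩
        exact ⟨⟨h3, fun t ht => h4 t (Finset.mem_insert_of_mem ht)⟩,
          h4 a (Finset.mem_insert_self _ _)⟩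
      · rintro ⟨⟨h3, h4⟩, h5⟩
        refine ⟨h3, fun t ht => ?_⟩
        rcases Finset.mem_insert.1 ht with rfl | ht
        · exact h5
        · exact h4 t ht
    have hc : (insert a T).card = T.card + 1 := Finset.card_insert_of_notMem ha
    cases hk : n - T.card with
    | zero =>
      rw [hk] at h1
      have h3 : A' = ∅ := h1
      rw [h3] at haA
      simp at haA
    | succ k =>
      rw [hk] at h1
      have h3 : SL Γ A' (k + 1) ∧ ∀ a ∈ A', Hsp Γ k (lk Γ A' a) := h1
      have h4 : n - (insert a T).card = k := by omega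
      rw [h4, h2]
      exact h3.2 a haA

/-- A clique of maximal size among those satisfying a condition. -/
lemma exists_max_clique {V : Type} [DecidableEq V] [Fintype V] (p : Finset V → Prop)
    (h : ∃ T, p T) : ∃ T, p T ∧ ∀ T', p T' → T'.card ≤ T.card := by
  classical
  obtain ⟨T0, hT0⟩ := h
  obtain ⟨T, hT, hmax⟩ := Finset.exists_max_image (Finset.univ.filter p) Finset.card
    ⟨T0, Finset.mem_filter.2 ⟨Finset.mem_univ _, hT0⟩⟩
  refine ⟨T, (Finset.mem_filter.1 hT).2, fun T' hT' => ?_⟩
  exact hmax T' (Finset.mem_filter.2 ⟨Finset.mem_univ _, hT'⟩)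

lemma adj_iff {P : Type} [PartialOrder P] (x y : P) :
    (comparability P).Adj x y ↔ x < y ∨ y < x := by
  unfold comparability
  rw [SimpleGraph.fromRel_adj]
  constructor
  · exact fun h => h.2
  · rintro (h | h)
    · exact ⟨h.ne, Or.inl h⟩
    · exact ⟨h.ne', Or.inr h⟩

/-- RKF. -/
theorem rkf (hCar : CarStmt) : RkfStmt := by
  classical
  intro P _ _ _ n S hS
  have key : ∀ x ∈ S, ∃ d : ℕ, d + 1 ≤ n ∧
      ∀ A : Finset P, (∀ y, y ∈ A ↔ y ∈ S ∧ y < x) → Hsp (comparability P) d A := by
    intro x hx
    obtain ⟨C, ⟨hCS, hCx, hCle, hCcl⟩, hCmax⟩ := exists_max_clique (V := P)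
      (fun T => T ⊆ S ∧ x ∈ T ∧ (∀ y ∈ T, x ≤ y) ∧ (comparability P).IsClique (T : Set P))
      ⟨{x}, by
        refine ⟨?_, Finset.mem_singleton_self x, ?_, ?_⟩
        · intro y hy
          rw [Finset.mem_singleton] at hy
          rw [hy]
          exact hx
        · intro y hy
          rw [Finset.mem_singleton] at hy
          rw [hy]
        · simp⟩
    have hCn : C.card ≤ n := (hCar P (comparability P) n S hS C hCS hCcl).1
    have hC1 : 1 ≤ C.card := Finset.card_pos.2 ⟨x, hCx⟩
    refine ⟨n - C.card, by omega, fun A hA => ?_⟩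
    apply hsp_iter (comparability P) n S hS C hCS hCcl A
    intro v
    rw [hA]
    constructor
    · rintro ⟨h1, h2⟩
      refine ⟨h1, fun t ht => ?_⟩
      rw [adj_iff]
      exact Or.inr (h2.trans_le (hCle t ht))
    · rintro ⟨h1, h2⟩
      refine ⟨h1, ?_⟩
      have h3 := h2 x hCx
      rw [adj_iff] at h3
      rcases h3 with h3 | h3
      · exfalso
        have hvC : v ∉ C := by
          intro hv
          have := h2 v hv
          rw [adj_iff] at this
          rcases this with h | h <;> exact lt_irrefl _ h
        have h4 := hCmax (insert v C) (by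
          refine ⟨?_, Finset.mem_insert_of_mem hCx, ?_, ?_⟩
          · intro y hy
            rcases Finset.mem_insert.1 hy with rfl | hy
            · exact h1
            · exact hCS hy
          · intro y hy
            rcases Finset.mem_insert.1 hy with rfl | hy
            · exact h3.le
            · exact hCle y hy
          · rw [Finset.coe_insert]
            apply hCcl.insert
            intro b hb _
            exact (h2 b hb).symm)
        rw [Finset.card_insert_of_notMem hvC] at h4
        omega
      · exact h3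
  choose! d hd1 hd2 using key
  refine ⟨fun x => d x + 1, ?_, ?_, ?_⟩
  · intro x hx
    exact ⟨Nat.le_add_left 1 (d x), hd1 x hx⟩
  · intro x hx y hy hxy
    set Ax : Finset P := S.filter (fun v => v < x) with hAx
    set Ay : Finset P := S.filter (fun v => v < y) with hAy
    have hmx : ∀ v, v ∈ Ax ↔ v ∈ S ∧ v < x := fun v => by rw [hAx, Finset.mem_filter]
    have hmy : ∀ v, v ∈ Ay ↔ v ∈ S ∧ v < y := fun v => by rw [hAy, Finset.mem_filter]
    have h1 := hd2 x hx Ax hmx
    have h2 := hd2 y hy Ay hmy
    obtain ⟨D, ⟨hDA, hDcl⟩, hDmax⟩ := exists_max_clique (V := P)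
      (fun T => T ⊆ Ax ∧ (comparability P).IsClique (T : Set P))
      ⟨∅, Finset.empty_subset _, by simp⟩
    have hDcard : D.card = d x := by
      apply (hCar P (comparability P) (d x) Ax h1 D hDA hDcl).2
      intro v hv hvD hcl
      have h3 := hDmax (insert v D) ⟨by
        intro w hw
        rcases Finset.mem_insert.1 hw with rfl | hw
        · exact hv
        · exact hDA hw, by
        rw [Finset.coe_insert]
        exact hcl⟩
      rw [Finset.card_insert_of_notMem hvD] at h3
      omega
    have hxD : x ∉ D := by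
      intro h
      exact lt_irrefl _ ((hmx x).1 (hDA h)).2
    have h4 := (hCar P (comparability P) (d y) Ay h2 (insert x D) (by
      intro w hw
      rcases Finset.mem_insert.1 hw with rfl | hw
      · exact (hmy w).2 ⟨hx, hxy⟩
      · have := (hmx w).1 (hDA hw)
        exact (hmy w).2 ⟨this.1, this.2.trans hxy⟩) (by
      rw [Finset.coe_insert]
      apply hDcl.insert
      intro b hb _
      rw [adj_iff]
      exact Or.inr ((hmx b).1 (hDA hb)).2)).1
    rw [Finset.card_insert_of_notMem hxD] at h4
    show d x + 1 < d y + 1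
    omega
  · intro x hx A hA
    show Hsp (comparability P) (d x + 1 - 1) A
    rw [Nat.add_sub_cancel]
    exact hd2 x hx A hA

end Pool.Agent.Sph.H37
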